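import Pool.Agent.Q291.MK.Stm5
import Pool.Agent.Q224.MK.PROP

/-!
# Job PR2 of project MK: the scaling limit to the next order
-/

namespace Pool.Agent.Q14.MK

open Pool.Agent.Q291.MK Filter Topology

/-- from `log y` to `log (k + 1)` -/
theorem log_swap {C : ℝ} (hC : 0 ≤ C) : ∃ C' : ℝ, 0 < C' ∧ ∀ (y : ℝ) (k : ℕ), 1 ≤ y →
    |y - 2 * k - 8 / 15 * Real.log y| ≤ C → |y - 2 * k - 8 / 15 * Real.log (k + 1)| ≤ C' := by
  refine ⟨C + Real.log (3 / 2 + C / 2) + Real.log (15 / 7 * (2 + C)) + 1, ?_, ?_⟩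
  · have h1 : 0 ≤ Real.log (3 / 2 + C / 2) := Real.log_nonneg (by linarith)
    have h2 : 0 ≤ Real.log (15 / 7 * (2 + C)) := Real.log_nonneg (by linarith)
    linarith
  intro y k hy h
  have hk : (0:ℝ) ≤ k := Nat.cast_nonneg k
  have hk1 : (0:ℝ) < (k:ℝ) + 1 := by linarith
  have hy0 : 0 < y := by linarith
  have hly : 0 ≤ Real.log y := Real.log_nonneg hy
  have hly2 : Real.log y ≤ y := (Real.log_le_sub_one_of_pos hy0).trans (by linarith)
  have h0 := abs_le.1 h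
  -- upper bound for log (k + 1) - log y
  have a1 : (k:ℝ) + 1 ≤ (3 / 2 + C / 2) * y := by
    have e1 : 2 * (k:ℝ) ≤ y + C := by linarith [h0.1, h0.2]
    nlinarith
  have a2 : Real.log ((k:ℝ) + 1) ≤ Real.log (3 / 2 + C / 2) + Real.log y := by
    rw [← Real.log_mul (by linarith) hy0.ne']
    exact Real.log_le_log hk1 a1
  have a3 : y ≤ 15 / 7 * (2 + C) * ((k:ℝ) + 1) := by
    have e1 : y - 8 / 15 * y ≤ 2 * k + C := by linarith [h0.2]
    have e2 : 7 / 15 * y ≤ (2 + C) * ((k:ℝ) + 1) := by nlinarith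
    linarith
  have a4 : Real.log y ≤ Real.log (15 / 7 * (2 + C)) + Real.log ((k:ℝ) + 1) := by
    rw [← Real.log_mul (by linarith) hk1.ne']
    exact Real.log_le_log hy0 a3
  have b1 : 0 ≤ Real.log (3 / 2 + C / 2) := Real.log_nonneg (by linarith)
  have b2 : 0 ≤ Real.log (15 / 7 * (2 + C)) := Real.log_nonneg (by linarith)
  rw [abs_le]
  constructor
  · linarith [h0.1]
  · linarith [h0.2]

/-- All bounds along one orbit normalised at level `N`, to the next order. -/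
theorem core2 (hO : P_OR2) {w M1 : ℝ} (hw0 : 0 < w) : ∃ C : ℝ, 0 < C ∧ ∀ (N : ℕ) (x : ℝ), 0 < x →
    3 * w ≤ mean (R^[N] (pois x)) → mean (R^[N] (pois x)) ≤ M1 →
    ∀ j : ℕ, j ≤ N → |mean (R^[N - j] (pois x)) - 2 * j - 8 / 15 * Real.log (j + 1)| ≤ C := by
  obtain ⟨C0, hC0, hcore⟩ := Pool.Agent.Q224.MK.PropAux.core (w := w) (M1 := M1) hw0
  obtain ⟨M, C, hM, hC, hor⟩ := hO
  -- the level `j1`
  obtain ⟨j1, hj1⟩ : ∃ j1 : ℕ, M ≤ 2 * (j1:ℝ) - C0 * (1 + Real.log (j1 + 1)) := by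
    obtain ⟨j1, hj1⟩ := exists_nat_ge (M + 1 + C0 ^ 2)
    refine ⟨j1, ?_⟩
    have h5 := Real.log_le_sub_one_of_pos (show (0:ℝ) < ((j1:ℝ) + 1) / C0 by positivity)
    rw [Real.log_div (by positivity) hC0.ne'] at h5
    have h6 : Real.log C0 ≤ C0 := Real.log_le_self hC0.le
    have h7 : Real.log ((j1:ℝ) + 1) ≤ ((j1:ℝ) + 1) / C0 - 1 + C0 := by linarith
    have h8 := mul_le_mul_of_nonneg_left h7 hC0.le
    have h9 : C0 * (((j1:ℝ) + 1) / C0 - 1 + C0) = (j1:ℝ) + 1 - C0 + C0 ^ 2 := by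
      field_simp
    rw [h9] at h8
    linarith
  have hlog1 : 0 ≤ Real.log ((j1:ℝ) + 1) :=
    Real.log_nonneg (by have : (0:ℝ) ≤ j1 := Nat.cast_nonneg j1; linarith)
  have hj10 : (0:ℝ) ≤ j1 := Nat.cast_nonneg j1
  obtain ⟨B, hB⟩ : ∃ B, B = 2 * (j1:ℝ) + C0 * (1 + Real.log (j1 + 1)) := ⟨_, rfl⟩
  have hB10 : M ≤ B := by
    have : 0 ≤ C0 * (1 + Real.log ((j1:ℝ) + 1)) := by positivity
    linarith
  obtain ⟨C', hC', hswap⟩ := log_swap (C := C + B + 2 * j1 + B) (by linarith)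
  refine ⟨C' + (C0 + 1) * (1 + Real.log (j1 + 1)), by positivity, ?_⟩
  intro N x hx hlo hhi j hj
  obtain ⟨-, hμ, -⟩ := hcore N x hx hlo hhi
  have hextra : 0 ≤ (C0 + 1) * (1 + Real.log ((j1:ℝ) + 1)) := by positivity
  rcases le_or_gt j1 j with h | h
  · -- high levels
    have hn := hμ j1 (by omega)
    obtain ⟨μ, hμd⟩ : ∃ μ, μ = mean (R^[N - j1] (pois x)) := ⟨_, rfl⟩
    rw [← hμd] at hn
    have hn' := abs_le.1 hn
    have hμM : M ≤ μ := by linarith [hn'.1]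
    have hμB : μ ≤ B := by linarith [hn'.2]
    have h1 := hor x (N - j1) hx (by rw [← hμd]; exact hμM) (N - j) (by omega)
    rw [← hμd] at h1
    obtain ⟨y, hy⟩ : ∃ y, y = mean (R^[N - j] (pois x)) := ⟨_, rfl⟩
    rw [← hy] at h1 ⊢
    have hy1 : M ≤ y := by
      obtain ⟨pAM, p0⟩ := BetaAux.pois_AM bPOIS hx
      obtain ⟨-, -, smono, -⟩ := bST (pois x) pAM p0
      have hanti : Antitone fun n => mean (R^[n] (pois x)) := antitone_nat_of_succ_le smono
      have := hanti (show N - j ≤ N - j1 by omega)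
      simp only at this
      rw [← hμd, ← hy] at this
      linarith
    have hy0 : 0 < y := by linarith
    have hμ0 : 0 < μ := by linarith
    have e1 : (((N - j1 : ℕ) : ℝ) - ((N - j : ℕ) : ℝ)) = (j:ℝ) - j1 := by
      rw [Nat.cast_sub hj, Nat.cast_sub (by omega : j1 ≤ N)]
      ring
    rw [e1, Real.log_div hy0.ne' hμ0.ne'] at h1
    have hlμ0 : 0 ≤ Real.log μ := Real.log_nonneg (by linarith)
    have hlμ : Real.log μ ≤ μ := (Real.log_le_sub_one_of_pos hμ0).trans (by linarith)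
    have h2 := abs_le.1 h1
    have h3 := hswap y j (by linarith) (by
      rw [abs_le]
      constructor
      · linarith [h2.1]
      · linarith [h2.2])
    linarith
  · -- low levels
    have h1 := abs_le.1 (hμ j hj)
    have hj0 : (0:ℝ) ≤ j := Nat.cast_nonneg j
    have hlj0 : 0 ≤ Real.log ((j:ℝ) + 1) := Real.log_nonneg (by linarith)
    have hlj : Real.log ((j:ℝ) + 1) ≤ Real.log ((j1:ℝ) + 1) :=
      Real.log_le_log (by linarith) (by
        have : (j:ℝ) ≤ j1 := by exact_mod_cast h.le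
        linarith)
    have h2 : C0 * (1 + Real.log ((j:ℝ) + 1)) ≤ C0 * (1 + Real.log ((j1:ℝ) + 1)) :=
      mul_le_mul_of_nonneg_left (by linarith) hC0.le
    have e : (C0 + 1) * (1 + Real.log ((j1:ℝ) + 1)) =
        C0 * (1 + Real.log ((j1:ℝ) + 1)) + 1 + Real.log ((j1:ℝ) + 1) := by ring
    rw [e, abs_le]
    constructor
    · linarith [h1.1]
    · linarith [h1.2]

theorem t_PR2 : P_OR2 → P_PR2 := by
  intro hO m ν x b hm hν hx hlim hconv
  obtain ⟨C, hC, hN⟩ := core2 hO (w := m / 6) (M1 := 2 * m) (by linarith)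
  have hgood : ∀ᶠ l in atTop, m / 2 < mean (R^[ν l] (pois (x l))) ∧ mean (R^[ν l] (pois (x l))) < 2 * m :=
    (hlim.eventually (lt_mem_nhds (by linarith))).and (hlim.eventually (gt_mem_nhds (by linarith)))
  have hb : ∀ᶠ l in atTop, ∀ j : ℕ, j ≤ ν l →
      |mean (R^[ν l - j] (pois (x l))) - 2 * j - 8 / 15 * Real.log (j + 1)| ≤ C := by
    filter_upwards [hgood] with l hl
    exact hN (ν l) (x l) (hx l) (by linarith [hl.1]) hl.2.le
  refine ⟨C, hC, ?_, ?_⟩
  · filter_upwards [hb] with l hl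
    have h1 := hl (ν l) le_rfl
    simp only [Nat.sub_self, Function.iterate_zero, id_eq] at h1
    rw [(bPOIS (x l) (hx l).le).2.1] at h1
    have e : x l - 2 * (ν l:ℝ) - 8 / 15 * Real.log (ν l + 1) =
        2 * (x l / 2 - ν l - 4 / 15 * Real.log (ν l + 1)) := by ring
    rw [e, abs_mul, abs_two] at h1
    have := abs_nonneg (x l / 2 - ν l - 4 / 15 * Real.log (ν l + 1))
    linarith
  · intro j
    refine le_of_tendsto (((hconv (-j)).sub_const _).sub_const _).abs ?_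
    filter_upwards [hν.eventually_ge_atTop j, hb] with l hl hl2
    have e : ((ν l : ℤ) + (-(j:ℤ))).toNat = ν l - j := by omega
    rw [e]
    exact hl2 j hl

end Pool.Agent.Q14.MK
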