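import Pool.Agent.Q291.MK.Stm5
import Pool.Agent.Q146.MK.SIG

/-!
# Job SG2 of project MK: the string tension at weak coupling, up to constants
-/

namespace Pool.Agent.Q14.MK

open Pool.Agent.Q291.MK Filter Topology

/-- the string tension in terms of the first scale at which the mean is below `M` -/
theorem sig_scale (hR : P_RB) (hST : P_ST) (hP : P_POIS) {C3 C8 M D Q : ℝ} (hD : 0 < D)
    (hMD : 10 + 2 * D ≤ M) (hQ : M ^ 2 + M ≤ Q)
    (horb : ∀ m : ℝ, 0 < m → ∀ n : ℕ,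
      (M ≤ mean (R^[n] (pois m)) → Cls C3 C8 (R^[n] (pois m)) ∧
        1 - D / mean (R^[n] (pois m)) ≤ W (R^[n] (pois m)) ∧
        ∀ j : ℕ, j ≤ n → |mean (R^[j] (pois m)) - mean (R^[n + 1] (pois m)) - 2 * (n + 1 - j)| ≤
          2 + D * (1 + Real.log (n + 1 - j))) ∧
      (mean (R^[n] (pois m)) < M → q2 (R^[n] (pois m)) ≤ Q)) :
    ∃ C1 : ℝ, 0 ≤ C1 ∧ ∀ β σ : ℝ, 2 ≤ β →
      Tendsto (fun n : ℕ => -Real.log (W (R^[n] (pois (2 * β)))) / 4 ^ n) atTop (𝓝 σ) →
      ∃ n1 : ℕ, mean (R^[n1] (pois (2 * β))) < M ∧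
        (∀ k < n1, M ≤ mean (R^[k] (pois (2 * β)))) ∧ 0 ≤ mean (R^[n1] (pois (2 * β))) ∧
        |Real.log σ + 2 * Real.log 2 * n1| ≤ C1 := by
  have hM10 : 10 ≤ M := by linarith
  obtain ⟨Q1, hQ1⟩ : ∃ Q1, Q1 = Q + M ^ 2 + M := ⟨_, rfl⟩
  have hQ1one : 1 ≤ Q1 := by nlinarith
  obtain ⟨N0, hN0⟩ : ∃ N0 : ℕ, 24 * Q1 * M ≤ N0 := exists_nat_ge _
  have hlog2 : 1 / 2 < Real.log 2 := by have := Real.log_two_gt_d9; linarith
  have hlog2' : Real.log 2 < 1 := by have := Real.log_two_lt_d9; linarith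
  obtain ⟨C1, hC1⟩ : ∃ C1, C1 = |Real.log (Real.log 16)| + |Real.log (Real.log 2)| + N0 * 2 :=
    ⟨_, rfl⟩
  have hC1p : 0 ≤ C1 := by rw [hC1]; positivity
  refine ⟨C1, hC1p, ?_⟩
  intro β σ hβ hσ
  have hm : 0 < 2 * β := by linarith
  obtain ⟨pAM, pm, -, -, -, -⟩ := hP (2 * β) hm.le
  have p0 : pois (2 * β) 0 < 1 := Pool.Agent.Q146.MK.pois_zero_lt hm
  have itS : ∀ n, R^[n + 1] (pois (2 * β)) = R (R^[n] (pois (2 * β))) :=
    fun n => Function.iterate_succ_apply' R n _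
  obtain ⟨sAM, s0, smono, sq, sW, stend, -, σ', hσ'p, hσ't, hσ'le, hσ'ge⟩ := hST _ pAM p0
  have hσσ : σ = σ' := tendsto_nhds_unique hσ hσ't
  subst hσσ
  have hex : ∃ n, mean (R^[n] (pois (2 * β))) < M :=
    (stend.eventually_lt_const (show (0:ℝ) < M by linarith)).exists
  classical
  obtain ⟨n1, hn1, hmin⟩ : ∃ n1, mean (R^[n1] (pois (2 * β))) < M ∧
      ∀ k < n1, ¬ mean (R^[k] (pois (2 * β))) < M :=
    ⟨Nat.find hex, Nat.find_spec hex, fun k hk => Nat.find_min hex hk⟩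
  have hnn := Pool.Agent.Q146.MK.mean_nonneg' (sAM n1).toLaw
  -- lower bound for the Wilson loop at scale n1
  have hW16 : 1 / 16 ≤ W (R^[n1] (pois (2 * β))) := by
    rcases Nat.eq_zero_or_pos n1 with h | h
    · subst h
      exact Pool.Agent.Q146.MK.W_pois_ge (by linarith) pAM
    · obtain ⟨k, rfl⟩ : ∃ k, n1 = k + 1 := ⟨n1 - 1, by omega⟩
      have hk := hmin k (by omega)
      push Not at hk
      have h1 := ((horb (2 * β) hm k).1 hk).2.1
      have h2 : D / mean (R^[k] (pois (2 * β))) ≤ 1 / 2 := by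
        rw [div_le_div_iff₀ (by linarith) (by norm_num)]
        linarith
      have h3 : 1 / 2 ≤ W (R^[k] (pois (2 * β))) := by linarith
      have h4 := (hR _ (sAM k)).2.2.2.2.1
      rw [← itS] at h4
      have h5 : (1 / 2 : ℝ) ^ 4 ≤ W (R^[k] (pois (2 * β))) ^ 4 :=
        pow_le_pow_left₀ (by norm_num) h3 4
      have h6 : (1 / 2 : ℝ) ^ 4 = 1 / 16 := by norm_num
      rw [h6] at h5
      exact h5.trans h4
  have h4n : (0:ℝ) < 4 ^ n1 := by positivity
  have hlog4 : Real.log 4 = 2 * Real.log 2 := by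
    rw [show (4:ℝ) = 2 ^ 2 by norm_num, Real.log_pow]; push_cast; ring
  have hlog16 : 0 < Real.log 16 := Real.log_pos (by norm_num)
  -- upper bound for σ
  have hup : Real.log σ + 2 * Real.log 2 * n1 ≤ |Real.log (Real.log 16)| := by
    have h1 := hσ'le n1
    have h2 : -Real.log (W (R^[n1] (pois (2 * β)))) ≤ Real.log 16 := by
      have h3 := Real.log_le_log (by norm_num) hW16
      rw [one_div, Real.log_inv] at h3
      linarith
    have h3 : σ ≤ Real.log 16 / 4 ^ n1 := h1.trans (div_le_div_of_nonneg_right h2 h4n.le)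
    have h4 := Real.log_le_log hσ'p h3
    rw [Real.log_div hlog16.ne' h4n.ne', Real.log_pow, hlog4] at h4
    have h5 := le_abs_self (Real.log (Real.log 16))
    linarith
  -- lower bound for σ
  have hlo : -(|Real.log (Real.log 2)| + N0 * 2) ≤ Real.log σ + 2 * Real.log 2 * n1 := by
    obtain ⟨-, -, -, -, -, -, thalf, -⟩ := hST _ (sAM n1) (s0 n1)
    have hq := (horb (2 * β) hm n1).2 hn1
    have h1 := thalf Q1 hQ1one (by nlinarith) N0 (by
      refine le_trans ?_ hN0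
      exact mul_le_mul_of_nonneg_left hn1.le (by linarith))
    rw [← Function.iterate_add_apply] at h1
    have h2 := hσ'ge _ h1
    have h3 := Real.log_le_log (by positivity) h2
    have h4N : (0:ℝ) < 4 ^ (N0 + n1) := by positivity
    rw [Real.log_div (by linarith) h4N.ne', Real.log_pow, hlog4] at h3
    push_cast at h3
    have h5 := neg_abs_le (Real.log (Real.log 2))
    have h6 : (0:ℝ) ≤ N0 := Nat.cast_nonneg _
    nlinarith
  refine ⟨n1, hn1, fun k hk => not_lt.1 (hmin k hk), hnn, ?_⟩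
  rw [abs_le, hC1]
  have h1 := abs_nonneg (Real.log (Real.log 2))
  have h2 := abs_nonneg (Real.log (Real.log 16))
  have h6 : (0:ℝ) ≤ N0 := Nat.cast_nonneg _
  constructor <;> linarith

/-- `D log x ≤ x + D log K` -/
theorem log_lin {D K x : ℝ} (hD : 0 < D) (hK1 : 1 ≤ K) (hKD : D ≤ K) (hx : 1 ≤ x) :
    D * Real.log x ≤ x + D * Real.log K := by
  have hx0 : 0 < x := by linarith
  have h2 : Real.log x ≤ x / K + Real.log K := by
    have h3 := Real.log_le_sub_one_of_pos (show 0 < x / K by positivity)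
    rw [Real.log_div hx0.ne' (by linarith)] at h3
    linarith
  have h4 : D * (x / K) ≤ x := by
    rw [mul_div_assoc', div_le_iff₀ (by linarith)]
    nlinarith
  nlinarith

theorem t_SG2' (hR : P_RB) (hST : P_ST) (hO : P_ORB) (hP : P_POIS) : P_OR2 → P_SG2 := by
  intro hor
  obtain ⟨C3, C8, M, D, Q, hC3, hC8, hD, hMD, hQ, horb⟩ := hO
  obtain ⟨M', C, hM', hC, hor2⟩ := hor
  obtain ⟨C1, hC1p, hsig⟩ := sig_scale hR hST hP hD hMD hQ horb
  obtain ⟨K, hK1, hKD⟩ : ∃ K : ℝ, 1 ≤ K ∧ D ≤ K := ⟨max 1 D, le_max_left _ _, le_max_right _ _⟩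
  have hlogK : 0 ≤ Real.log K := Real.log_nonneg hK1
  have hlog2 : 1 / 2 < Real.log 2 := by have := Real.log_two_gt_d9; linarith
  have hlog2' : Real.log 2 < 1 := by have := Real.log_two_lt_d9; linarith
  obtain ⟨M2, hM2a, hM2b⟩ : ∃ M2 : ℝ, M ≤ M2 ∧ M' ≤ M2 :=
    ⟨max M M', le_max_left _ _, le_max_right _ _⟩
  have hDK : 0 ≤ D * Real.log K := by positivity
  -- the distance between the two scales
  obtain ⟨C5, hC5⟩ : ∃ C5, C5 = M2 + 3 + D + D * Real.log K := ⟨_, rfl⟩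
  have hC5p : 0 ≤ C5 := by rw [hC5]; linarith
  obtain ⟨C7, hC7⟩ : ∃ C7, C7 = C + (M2 + 4 + D) + (1 + (M2 + 4 + D)) + 2 * (C5 + 1) + 2 * M2 :=
    ⟨_, rfl⟩
  refine ⟨C1 + C7, ?_⟩
  intro β σ hβ hσ
  obtain ⟨n1, hn1, hmin, hnn, hs⟩ := hsig β σ hβ hσ
  have hm : 0 < 2 * β := by linarith
  obtain ⟨pAM, pm, -, -, -, -⟩ := hP (2 * β) hm.le
  have p0 : pois (2 * β) 0 < 1 := Pool.Agent.Q146.MK.pois_zero_lt hm
  obtain ⟨sAM, s0, smono, sq, sW, stend, -, -⟩ := hST _ pAM p0
  have hanti : Antitone (fun n => mean (R^[n] (pois (2 * β)))) := antitone_nat_of_succ_le smono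
  have hlogβ : 1 / 2 < Real.log β :=
    hlog2.trans_le (Real.log_le_log (by norm_num) hβ)
  have hlogβ' : Real.log β ≤ β := (Real.log_le_sub_one_of_pos (by linarith)).trans (by linarith)
  have hex : ∃ n, mean (R^[n] (pois (2 * β))) < M2 :=
    ⟨n1, lt_of_lt_of_le hn1 hM2a⟩
  classical
  obtain ⟨n2, hn2, hmin2⟩ : ∃ n2, mean (R^[n2] (pois (2 * β))) < M2 ∧
      ∀ k < n2, M2 ≤ mean (R^[k] (pois (2 * β))) :=
    ⟨Nat.find hex, Nat.find_spec hex, fun k hk => not_lt.1 (Nat.find_min hex hk)⟩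
  have hn21 : n2 ≤ n1 := by
    by_contra h
    push Not at h
    have := hmin2 n1 h
    linarith
  -- `n1 - n2` is bounded
  have hb1 : (n1 : ℝ) - n2 ≤ C5 := by
    rcases Nat.eq_zero_or_pos (n1 - n2) with h | h
    · have : n1 = n2 := by omega
      rw [this, sub_self]
      exact hC5p
    · obtain ⟨k, rfl⟩ : ∃ k, n1 = k + 1 := ⟨n1 - 1, by omega⟩
      have hk := hmin k (by omega)
      have h1 := ((horb (2 * β) hm k).1 hk).2.2 n2 (by omega)
      obtain ⟨x, hx⟩ : ∃ x : ℝ, x = (k:ℝ) + 1 - n2 := ⟨_, rfl⟩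
      rw [← hx] at h1
      have hx1 : 1 ≤ x := by
        rw [hx]
        have : (n2 : ℝ) ≤ k := by exact_mod_cast (show n2 ≤ k by omega)
        linarith
      have h3 := log_lin hD hK1 hKD hx1
      have h4 := (abs_le.1 h1).1
      push_cast
      rw [← hx, hC5]
      nlinarith
  have hb0 : (0 : ℝ) ≤ (n1 : ℝ) - n2 := by
    have : (n2 : ℝ) ≤ n1 := by exact_mod_cast hn21
    linarith
  -- the position of `n2`
  have hpos : |2 * β - 2 * n1 - 8 / 15 * Real.log β| ≤ C7 := by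
    rcases Nat.eq_zero_or_pos n2 with h | h
    · subst h
      simp only [Function.iterate_zero, id_eq] at hn2
      rw [pm] at hn2
      rw [Nat.cast_zero, sub_zero] at hb1 hb0
      rw [abs_le, hC7]
      constructor <;> nlinarith
    · obtain ⟨k, rfl⟩ : ∃ k, n2 = k + 1 := ⟨n2 - 1, by omega⟩
      have hk := hmin2 k (by omega)
      have h1 := ((horb (2 * β) hm k).1 (hM2a.trans hk)).2.2 k le_rfl
      have e1 : (k:ℝ) + 1 - k = 1 := by ring
      rw [e1, Real.log_one, add_zero, mul_one, mul_one] at h1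
      have h2 := hor2 (2 * β) k hm (hM2b.trans hk) 0 (Nat.zero_le _)
      simp only [Function.iterate_zero, id_eq, Nat.cast_zero, sub_zero] at h2
      rw [pm] at h2
      obtain ⟨μ, hμ⟩ : ∃ μ, μ = mean (R^[k] (pois (2 * β))) := ⟨_, rfl⟩
      rw [← hμ] at h1 h2 hk
      have hμ1 : μ ≤ M2 + 4 + D := by
        have := (abs_le.1 h1).2
        linarith
      have hμp : 0 < μ := by linarith
      have hlμ0 : 0 ≤ Real.log μ := Real.log_nonneg (by linarith)
      have hlμ : Real.log μ ≤ μ := (Real.log_le_sub_one_of_pos hμp).trans (by linarith)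
      have e2 : Real.log (2 * β / μ) = Real.log 2 + Real.log β - Real.log μ := by
        rw [Real.log_div hm.ne' hμp.ne', Real.log_mul (by norm_num) (by linarith)]
      rw [e2] at h2
      have h3 := abs_le.1 h2
      push_cast at hb1 hb0
      rw [abs_le, hC7]
      constructor
      · linarith [h3.1]
      · linarith [h3.2]
  have hfin : Real.log σ + 2 * Real.log 2 * β - 8 / 15 * Real.log 2 * Real.log β =
      (Real.log σ + 2 * Real.log 2 * n1) + Real.log 2 * (2 * β - 2 * n1 - 8 / 15 * Real.log β) := by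
    ring
  rw [hfin]
  refine (abs_add_le _ _).trans (add_le_add hs ?_)
  rw [abs_mul, abs_of_pos (show 0 < Real.log 2 by linarith)]
  have := abs_nonneg (2 * β - 2 * n1 - 8 / 15 * Real.log β)
  nlinarith

end Pool.Agent.Q14.MK
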